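import Pool.Agent.H17.GM.Basic

/-!
# Board gmf_modules (MP_52e316_nt), row FNT: the integrated lattice sums
-/

set_option autoImplicit false

namespace Pool.Agent.H17.GM

open MeasureTheory Metric Pool.Agent.H34.GM

theorem fn_latsum (hPK : T_PK) (m : ℕ) (N : ℝ) (hN : (m : ℝ) ^ 2 < N) :
    ∃ C0 : ℝ, 0 < C0 ∧ ∀ (Λ : AddSubgroup (V m)) (l : ℝ), 0 < l →
      (∀ v ∈ Λ, v ≠ 0 → l ≤ ‖v‖) → ∀ (Kr : ℝ), 0 ≤ Kr → ∀ F : Λ → ENNReal,
      (∀ v : Λ, F v ≤ ENNReal.ofReal (Kr ^ N) * ENNReal.ofReal (‖(v : V m)‖ ^ (-N))) →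
      ∑' v : Λ, F v ≤ ENNReal.ofReal (C0 * l ^ (-N) * Kr ^ N) := by
  obtain ⟨C0, hC0, h⟩ := hPK (m * m) N (by push_cast; rw [← sq]; exact hN)
  refine ⟨C0, hC0, ?_⟩
  intro Λ l hl hmin Kr hKr F hF
  have h1 := h (V m) ⊤ (by rw [finrank_top, Module.finrank_pi_fintype]; simp) Λ l hl
    (fun v _ => Submodule.mem_top) hmin
  calc ∑' v : Λ, F v ≤ ∑' v : Λ, ENNReal.ofReal (Kr ^ N) * ENNReal.ofReal (‖(v : V m)‖ ^ (-N)) :=
        ENNReal.tsum_le_tsum hF
    _ = ENNReal.ofReal (Kr ^ N) * ∑' v : Λ, ENNReal.ofReal (‖(v : V m)‖ ^ (-N)) :=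
        ENNReal.tsum_mul_left
    _ ≤ ENNReal.ofReal (Kr ^ N) * ENNReal.ofReal (C0 * l ^ (-N)) := by gcongr
    _ = ENNReal.ofReal (C0 * l ^ (-N) * Kr ^ N) := by
        rw [← ENNReal.ofReal_mul (Real.rpow_nonneg hKr _)]
        congr 1
        ring

theorem fn_term {m : ℕ} {N Kr : ℝ} (hN : 0 < N) (hKr : 0 < Kr) {x κ : Mat m} (hx : x ≠ 0)
    (h : sz x ≤ Kr * sz κ) : (1 + sz κ) ^ (-N) ≤ Kr ^ N * sz x ^ (-N) := by
  have hx0 : 0 < sz x := lt_of_le_of_ne (gb_sz_nonneg x) fun h0 => hx ((gb_sz_zero_iff x).1 h0.symm)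
  have h1 : 0 < sz x / Kr := div_pos hx0 hKr
  have h2 : sz x / Kr ≤ 1 + sz κ := by
    rw [div_le_iff₀ hKr]
    linarith
  refine (Real.rpow_le_rpow_of_nonpos h1 h2 (by linarith)).trans (le_of_eq ?_)
  rw [Real.div_rpow hx0.le hKr.le, Real.rpow_neg hKr.le, div_inv_eq_mul, mul_comm]

/-- `O` as a lattice of `V m` -/
def LO {m : ℕ} (O : Subring (Mat m)) : AddSubgroup (V m) where
  carrier := {v | mt v ∈ O}
  zero_mem' := O.zero_mem
  add_mem' := fun ha hb => O.add_mem ha hb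
  neg_mem' := fun ha => O.neg_mem ha

def eO {m : ℕ} (O : Subring (Mat m)) : LO O ≃ O where
  toFun v := ⟨mt (v : V m), v.2⟩
  invFun α := ⟨fun i j => (α : Mat m) i j, α.2⟩
  left_inv _ := rfl
  right_inv _ := rfl

/-- the dual lattice in `V m` -/
def LD {m : ℕ} (O : Subring (Mat m)) : AddSubgroup (V m) where
  carrier := {v | mt v ∈ Dual O}
  zero_mem' := by
    intro y _
    refine ⟨0, ?_⟩
    have : (mt (0 : V m) : Mat m) = 0 := rfl
    rw [this]
    simp
  add_mem' := by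
    intro a b ha hb y hy
    obtain ⟨k, hk⟩ := ha y hy
    obtain ⟨l, hl⟩ := hb y hy
    refine ⟨k + l, ?_⟩
    have : (mt (a + b) : Mat m) = mt a + mt b := rfl
    rw [this, Matrix.add_mul, Matrix.trace_add, hk, hl]
    push_cast
    ring
  neg_mem' := by
    intro a ha y hy
    obtain ⟨k, hk⟩ := ha y hy
    refine ⟨-k, ?_⟩
    have : (mt (-a) : Mat m) = -mt a := rfl
    rw [this, Matrix.neg_mul, Matrix.trace_neg, hk]
    push_cast
    ring

def eD {m : ℕ} (O : Subring (Mat m)) : LD O ≃ Dual O where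
  toFun v := ⟨mt (v : V m), v.2⟩
  invFun α := ⟨fun i j => (α : Mat m) i j, α.2⟩
  left_inv _ := rfl
  right_inv _ := rfl

/-- Cramer: `d β ∈ O` for dual `β` -/
theorem fn_dual {m : ℕ} {O : Subring (Mat m)} {b : Module.Basis (Fin m × Fin m) ℝ (Mat m)} {d : ℤ}
    (hNRD : T_NRD) (hO : Ord m O b d) {β : Mat m} (hβ : β ∈ Dual O) : ((d : ℝ) • β) ∈ O := by
  classical
  have hbO : ∀ i, b i ∈ O := by
    intro i
    rw [hO.ord.lat]
    intro j
    rw [b.repr_self]
    by_cases hij : i = j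
    · exact ⟨1, by rw [hij]; simp⟩
    · exact ⟨0, by rw [Finsupp.single_apply, if_neg hij]; simp⟩
  have htr : ∀ x ∈ O, ∃ k : ℤ, x.trace = k := (hNRD m O b hO.one_le hO.ord).1
  have hG : ∀ p : (Fin m × Fin m) × (Fin m × Fin m), ∃ k : ℤ, (b p.1 * b p.2).trace = k :=
    fun p => htr _ (O.mul_mem (hbO _) (hbO _))
  choose G hGz using hG
  let Gz : Matrix (Fin m × Fin m) (Fin m × Fin m) ℤ := Matrix.of fun i j => G (i, j)
  let GR : Matrix (Fin m × Fin m) (Fin m × Fin m) ℝ := Matrix.of fun i j => (b i * b j).trace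
  have hGR : GR = (Int.castRingHom ℝ).mapMatrix Gz := by
    ext i j
    simp [GR, Gz, hGz (i, j)]
  have hk : ∀ j, ∃ k : ℤ, (β * b j).trace = k := fun j => hβ _ (hbO j)
  choose k hkz using hk
  have hc : Matrix.vecMul (fun i => b.repr β i) GR = fun j => (k j : ℝ) := by
    funext j
    rw [← hkz j]
    conv_rhs => rw [← b.sum_repr β]
    rw [Finset.sum_mul, Matrix.trace_sum]
    simp only [Matrix.vecMul, dotProduct, GR, Matrix.of_apply, Matrix.smul_mul, Matrix.trace_smul,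
      smul_eq_mul]
  have hadj : Matrix.vecMul (fun j => (k j : ℝ)) GR.adjugate = (d : ℝ) • fun i => b.repr β i := by
    rw [← hc, Matrix.vecMul_vecMul, Matrix.mul_adjugate]
    have : GR.det = (d : ℝ) := hO.disc
    rw [this, Matrix.vecMul_smul, Matrix.vecMul_one]
  rw [hO.ord.lat]
  intro j
  have h1 := congrFun hadj j
  have h2 : b.repr ((d : ℝ) • β) j = (Matrix.vecMul (fun j => (k j : ℝ)) GR.adjugate) j := by
    rw [h1]
    simp
  refine ⟨∑ i, k i * Gz.adjugate i j, ?_⟩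
  rw [h2, hGR, ← RingHom.map_adjugate]
  simp [Matrix.vecMul, dotProduct]

/-- left multiplication by a unit on `O` -/
def mulO {m : ℕ} {O : Subring (Mat m)} {γ δ : Mat m} (h1 : γ ∈ O) (h2 : δ ∈ O)
    (h3 : γ * δ = 1) (h4 : δ * γ = 1) : O ≃ O where
  toFun α := ⟨γ * α, O.mul_mem h1 α.2⟩
  invFun α := ⟨δ * α, O.mul_mem h2 α.2⟩
  left_inv α := by
    ext1
    change δ * (γ * (α : Mat m)) = α
    rw [← Matrix.mul_assoc, h4, Matrix.one_mul]
  right_inv α := by
    ext1
    change γ * (δ * (α : Mat m)) = α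
    rw [← Matrix.mul_assoc, h3, Matrix.one_mul]

/-- right multiplication by a unit on `O` -/
def mulOr {m : ℕ} {O : Subring (Mat m)} {γ δ : Mat m} (h1 : γ ∈ O) (h2 : δ ∈ O)
    (h3 : γ * δ = 1) (h4 : δ * γ = 1) : O ≃ O where
  toFun α := ⟨α * γ, O.mul_mem α.2 h1⟩
  invFun α := ⟨α * δ, O.mul_mem α.2 h2⟩
  left_inv α := by
    ext1
    change (α : Mat m) * γ * δ = α
    rw [Matrix.mul_assoc, h3, Matrix.mul_one]
  right_inv α := by
    ext1
    change (α : Mat m) * δ * γ = α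
    rw [Matrix.mul_assoc, h4, Matrix.mul_one]

theorem dual_left {m : ℕ} {O : Subring (Mat m)} {γ β : Mat m} (h1 : γ ∈ O) (hβ : β ∈ Dual O) :
    γ * β ∈ Dual O := by
  intro y hy
  obtain ⟨k, hk⟩ := hβ (y * γ) (O.mul_mem hy h1)
  refine ⟨k, ?_⟩
  rw [← hk, Matrix.mul_assoc, Matrix.trace_mul_comm, Matrix.mul_assoc]

theorem dual_right {m : ℕ} {O : Subring (Mat m)} {γ β : Mat m} (h1 : γ ∈ O) (hβ : β ∈ Dual O) :
    β * γ ∈ Dual O := by
  intro y hy
  obtain ⟨k, hk⟩ := hβ (γ * y) (O.mul_mem h1 hy)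
  exact ⟨k, by rw [← hk, Matrix.mul_assoc]⟩

/-- left multiplication by a unit on the dual -/
def mulD {m : ℕ} {O : Subring (Mat m)} {γ δ : Mat m} (h1 : γ ∈ O) (h2 : δ ∈ O)
    (h3 : γ * δ = 1) (h4 : δ * γ = 1) : Dual O ≃ Dual O where
  toFun α := ⟨γ * α, dual_left h1 α.2⟩
  invFun α := ⟨δ * α, dual_left h2 α.2⟩
  left_inv α := by
    ext1
    change δ * (γ * (α : Mat m)) = α
    rw [← Matrix.mul_assoc, h4, Matrix.one_mul]
  right_inv α := by
    ext1
    change γ * (δ * (α : Mat m)) = α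
    rw [← Matrix.mul_assoc, h3, Matrix.one_mul]

/-- right multiplication by a unit on the dual -/
def mulDr {m : ℕ} {O : Subring (Mat m)} {γ δ : Mat m} (h1 : γ ∈ O) (h2 : δ ∈ O)
    (h3 : γ * δ = 1) (h4 : δ * γ = 1) : Dual O ≃ Dual O where
  toFun α := ⟨α * γ, dual_right h1 α.2⟩
  invFun α := ⟨α * δ, dual_right h2 α.2⟩
  left_inv α := by
    ext1
    change (α : Mat m) * γ * δ = α
    rw [Matrix.mul_assoc, h3, Matrix.mul_one]
  right_inv α := by
    ext1
    change (α : Mat m) * δ * γ = α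
    rw [Matrix.mul_assoc, h4, Matrix.mul_one]

/-- the terms of the sums -/
noncomputable def tm {m : ℕ} (N : ℝ) (x κ : Mat m) : ENNReal :=
  open Classical in if x = 0 then 0 else ENNReal.ofReal ((1 + sz κ) ^ (-N))

theorem tm_le {m : ℕ} {N Kr : ℝ} (hN : 0 < N) (hKr : 0 < Kr) {x κ : Mat m}
    (h : sz x ≤ Kr * sz κ) :
    tm N x κ ≤ ENNReal.ofReal (Kr ^ N) * ENNReal.ofReal (sz x ^ (-N)) := by
  unfold tm
  by_cases hx : x = 0
  · rw [if_pos hx]
    exact bot_le
  · rw [if_neg hx, ← ENNReal.ofReal_mul (Real.rpow_nonneg hKr.le _)]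
    exact ENNReal.ofReal_le_ofReal (fn_term hN hKr hx h)

theorem tm_unit {m : ℕ} {γ δ : Mat m} (h4 : δ * γ = 1) (N : ℝ) (x κ : Mat m) :
    tm N (γ * x) κ = tm N x κ := by
  unfold tm
  have : γ * x = 0 ↔ x = 0 := by
    constructor
    · intro h
      have := congrArg (fun y => δ * y) h
      simpa [← Matrix.mul_assoc, h4] using this
    · rintro rfl
      exact Matrix.mul_zero _
  by_cases hx : x = 0
  · rw [if_pos (this.2 hx), if_pos hx]
  · rw [if_neg (fun h => hx (this.1 h)), if_neg hx]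

theorem tm_unit' {m : ℕ} {γ δ : Mat m} (h3 : γ * δ = 1) (N : ℝ) (x κ : Mat m) :
    tm N (x * γ) κ = tm N x κ := by
  unfold tm
  have : x * γ = 0 ↔ x = 0 := by
    constructor
    · intro h
      have := congrArg (fun y => y * δ) h
      simpa [Matrix.mul_assoc, h3] using this
    · rintro rfl
      exact Matrix.zero_mul _
  by_cases hx : x = 0
  · rw [if_pos (this.2 hx), if_pos hx]
  · rw [if_neg (fun h => hx (this.1 h)), if_neg hx]

theorem tm_meas (hMSR : T_MSR) {m : ℕ} (N r : ℝ) (x g : Mat m) :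
    Measurable (fun z : V m => tm N x (kk r (mt z) x g)) ∧
    Measurable (fun z : V m => tm N x (kk r g x (mt z))) := by
  obtain ⟨h1, -, -⟩ := hMSR
  obtain ⟨a1, a2, a3, a4, a5, a6, a7, a8⟩ := h1 m
  unfold tm
  by_cases hx : x = 0
  · simp only [if_pos hx]
    exact ⟨measurable_const, measurable_const⟩
  · simp only [if_neg hx]
    have e1 : Measurable (fun z : V m => sz (kk r (mt z) x g)) := by
      have h2 := (a7 r x).comp
        (measurable_id.prodMk (measurable_const (a := (fun i j => g i j : V m))))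
      exact a4.comp h2
    have e2 : Measurable (fun z : V m => sz (kk r g x (mt z))) := by
      have h2 := (a7 r x).comp
        ((measurable_const (a := (fun i j => g i j : V m))).prodMk measurable_id)
      exact a4.comp h2
    exact ⟨((measurable_const.add e1).pow_const _).ennreal_ofReal,
      ((measurable_const.add e2).pow_const _).ennreal_ofReal⟩

/-- Row FNT. -/
theorem pf_FNT (hNRD : T_NRD) (hPK : T_PK) (hCMP : T_CMP) (hMSR : T_MSR) (hHAR : T_HAR)
    (hCOV : T_COV) : T_FNT := by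
  intro m O b d hOrd hd N hN
  have h1m : 1 ≤ m := hOrd.one_le
  have hDO := hOrd.ord
  have hN0 : 0 < N := lt_of_le_of_lt (sq_nonneg _) hN
  obtain ⟨C1, hC1, hcmp⟩ := hCMP m O b h1m hDO
  obtain ⟨C0, hC0, hlat⟩ := fn_latsum hPK m N hN
  have hnrd := hNRD m O b h1m hDO
  have hdet : ∀ γ ∈ UnitsOf O, |γ.det| = 1 := hnrd.2.2.2
  have hcntO : Countable O := (hMSR.2.1 m O b hDO).1
  have hcntD : Countable (Dual O) := hMSR.2.2 m O b hDO
  -- minima
  let l : ℝ := 1 / (m.factorial : ℝ)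
  have hf : (0 : ℝ) < m.factorial := by exact_mod_cast m.factorial_pos
  have hl : 0 < l := div_pos one_pos hf
  have hminO : ∀ x ∈ O, x ≠ 0 → l ≤ sz x := by
    intro x hx hx0
    obtain ⟨n, hn, hn'⟩ := hnrd.2.2.1 x hx hx0
    refine gb_min h1m ?_
    rw [hn']
    exact_mod_cast hn
  have hd' : (0 : ℝ) < |(d : ℝ)| := abs_pos.2 (Int.cast_ne_zero.2 hd)
  let l' : ℝ := l / |(d : ℝ)|
  have hl' : 0 < l' := div_pos hl hd'
  have hminD : ∀ x ∈ Dual O, x ≠ 0 → l' ≤ sz x := by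
    intro x hx hx0
    have h1 := fn_dual hNRD hOrd hx
    have h2 : ((d : ℝ) • x) ≠ 0 := by
      intro h
      rcases smul_eq_zero.1 h with h | h
      · exact hd (Int.cast_eq_zero.1 h)
      · exact hx0 h
    have h3 := hminO _ h1 h2
    rw [gb_sz_smul] at h3
    rw [div_le_iff₀ hd']
    linarith
  -- constants
  let K : ℝ := m * m * C1 ^ 2 * Real.exp 1
  have hmR : (1 : ℝ) ≤ m := by exact_mod_cast h1m
  have hexp := Real.exp_pos 1
  have hK : 0 < K := by positivity
  have hOmf := gb_Om_fin hHAR h1m C1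
  have hOmm := gb_Om_meas hMSR (m := m) C1
  have hcov := gb_Om_cover hNRD h1m hDO hC1 hcmp
  let M : ℝ := (hm m (Om m C1)).toReal
  have hM : 0 ≤ M := ENNReal.toReal_nonneg
  have hMe : hm m (Om m C1) = ENNReal.ofReal M := (ENNReal.ofReal_toReal hOmf.ne).symm
  have hfirst : ∀ r : ℝ, 0 < r → ∀ z ∈ Om m C1, ∀ g : Mat m, g.det ≠ 0 →
      sz g⁻¹ ≤ C1 * (aN g)⁻¹ → ∀ x : Mat m, sz x ≤ (K * r) * sz (kk r (mt z) x g) := by
    intro r hr z hz g hg hgi x
    have hzd := gb_shell_det hz.1 h1m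
    have h1 := gb_kk_size r hr hzd hg x
    have ha : 1 ≤ aN (mt z) := hz.1.1
    have hA := gb_aN_pos hg
    have h2 : (m : ℝ) * m * sz (mt z) * sz (kk r (mt z) x g) * sz g⁻¹ ≤
        m * m * (C1 * Real.exp 1) * sz (kk r (mt z) x g) * (C1 * (aN g)⁻¹) := by
      have := gb_sz_nonneg (kk r (mt z) x g)
      have := gb_sz_nonneg g⁻¹
      have := hz.2.1
      gcongr
    have h3 := h1.trans h2
    have h4 : aN (mt z) * sz x ≤ K * r * sz (kk r (mt z) x g) := by
      have h5 := mul_le_mul_of_nonneg_left h3 (mul_pos hr hA).le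
      have e1 : r * aN g * (r⁻¹ * aN (mt z) / aN g * sz x) = aN (mt z) * sz x := by
        field_simp
      have e2 : r * aN g * (m * m * (C1 * Real.exp 1) * sz (kk r (mt z) x g) *
          (C1 * (aN g)⁻¹)) = K * r * sz (kk r (mt z) x g) := by
        field_simp
        ring
      rw [e1, e2] at h5
      exact h5
    have h6 := gb_sz_nonneg x
    nlinarith
  have hsecond : ∀ r : ℝ, 0 < r → ∀ z ∈ Om m C1, ∀ g : Mat m, g.det ≠ 0 →
      sz g ≤ C1 * aN g → ∀ x : Mat m, sz x ≤ (K * r) * sz (kk r g x (mt z)) := by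
    intro r hr z hz g hg hgi x
    have hzd := gb_shell_det hz.1 h1m
    have h1 := gb_kk_size r hr hg hzd x
    have ha : aN (mt z) ≤ Real.exp 1 := hz.1.2.le
    have ha0 := gb_aN_pos hzd
    have hA := gb_aN_pos hg
    have h2 : (m : ℝ) * m * sz g * sz (kk r g x (mt z)) * sz (mt z)⁻¹ ≤
        m * m * (C1 * aN g) * sz (kk r g x (mt z)) * C1 := by
      have := gb_sz_nonneg (kk r g x (mt z))
      have := gb_sz_nonneg (mt z)⁻¹
      have := hz.2.2
      gcongr
    have h3 := h1.trans h2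
    have h5 := mul_le_mul_of_nonneg_left h3 (div_pos (mul_pos hr ha0) hA).le
    have e1 : r * aN (mt z) / aN g * (r⁻¹ * aN g / aN (mt z) * sz x) = sz x := by
      field_simp
    have e2 : r * aN (mt z) / aN g * (m * m * (C1 * aN g) * sz (kk r g x (mt z)) * C1) =
        (m * m * C1 ^ 2 * r * sz (kk r g x (mt z))) * aN (mt z) := by
      field_simp
    rw [e1, e2] at h5
    have h6 := gb_sz_nonneg (kk r g x (mt z))
    have h7 : (m * m * C1 ^ 2 * r * sz (kk r g x (mt z))) * aN (mt z) ≤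
        (m * m * C1 ^ 2 * r * sz (kk r g x (mt z))) * Real.exp 1 := by
      gcongr
    refine (h5.trans h7).trans (le_of_eq ?_)
    change _ = m * m * C1 ^ 2 * Real.exp 1 * r * _
    ring
  -- the two sums
  have hsumO : ∀ (r : ℝ), 0 < r → ∀ κ : Mat m → Mat m,
      (∀ x, sz x ≤ (K * r) * sz (κ x)) → ∑' α : O, tm N (α : Mat m) (κ α) ≤
        ENNReal.ofReal (C0 * l ^ (-N) * (K * r) ^ N) := by
    intro r hr κ hκ
    rw [← (eO O).tsum_eq]
    refine hlat (LO O) l hl ?_ (K * r) (by positivity) _ ?_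
    · intro v hv hv0
      exact hminO (mt v) hv (fun h => hv0 h)
    · intro v
      exact tm_le hN0 (by positivity) (hκ _)
  have hsumD : ∀ (r : ℝ), 0 < r → ∀ κ : Mat m → Mat m,
      (∀ x, sz x ≤ (K * r) * sz (κ x)) → ∑' β : Dual O, tm N (β : Mat m) (κ β) ≤
        ENNReal.ofReal (C0 * l' ^ (-N) * (K * r) ^ N) := by
    intro r hr κ hκ
    rw [← (eD O).tsum_eq]
    refine hlat (LD O) l' hl' ?_ (K * r) (by positivity) _ ?_
    · intro v hv hv0
      exact hminD (mt v) hv (fun h => hv0 h)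
    · intro v
      exact tm_le hN0 (by positivity) (hκ _)
  refine ⟨C0 * (l ^ (-N) + l' ^ (-N)) * K ^ N * M + 1, by positivity, ?_⟩
  intro D hD
  have hcovD := hCOV m O b h1m hDO D hD (Om m C1) hOmm hcov
  refine ⟨?_, ?_⟩
  · have h1 := hcovD (fun _ => 1) measurable_const (fun _ _ _ _ => rfl)
    rw [setLIntegral_one, setLIntegral_one] at h1
    exact lt_of_le_of_lt h1 hOmf
  intro r hr g hg
  obtain ⟨γ0, hγ0, hg1, hg2⟩ := hcmp g hg
  have hd0 := hdet γ0 hγ0
  obtain ⟨hγ0O, δ0, hδ0O, h34, h43⟩ := hγ0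
  have hg' : (γ0 * g).det ≠ 0 := gb_det_ne hd0 hg
  have haN' : aN (γ0 * g) = aN g := gb_aN_mul hd0 g
  rw [← haN'] at hg1 hg2
  have hKr : (K * r) ^ N = K ^ N * r ^ N := Real.mul_rpow hK.le hr.le
  have hrN : 0 < r ^ N := Real.rpow_pos_of_pos hr _
  have hKN : 0 < K ^ N := Real.rpow_pos_of_pos hK _
  have hlN : 0 < l ^ (-N) := Real.rpow_pos_of_pos hl _
  have hlN' : 0 < l' ^ (-N) := Real.rpow_pos_of_pos hl' _
  constructor
  · -- first sum
    let F : V m → ENNReal := fun z => ∑' α : O, tm N (α : Mat m) (kk r (mt z) (α : Mat m) g)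
    have hFe : ∀ z : V m, (∑' α : O, (if α = 0 then 0 else
        ENNReal.ofReal ((1 + sz (kk r (mt z) (α : Mat m) g)) ^ (-N)))) = F z := by
      intro z
      refine tsum_congr fun α => ?_
      unfold tm
      by_cases h : α = 0
      · rw [if_pos h, if_pos (by rw [h]; rfl)]
      · have h0 : (α : Mat m) ≠ 0 := fun h' => h (Subtype.ext h')
        rw [if_neg h, if_neg h0]
    simp only [hFe]
    have hFm : Measurable F := Measurable.ennreal_tsum fun α => (tm_meas hMSR N r _ g).1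
    have hFi : ∀ γ ∈ UnitsOf O, ∀ z : V m, (mt z).det ≠ 0 →
        F (fun i j => (γ * mt z) i j) = F z := by
      intro γ hγ z _
      have hdγ := hdet γ hγ
      obtain ⟨hγO, δ, hδO, h3, h4⟩ := hγ
      have h5 : ∀ α : O, tm N (α : Mat m) (kk r (γ * mt z) (α : Mat m) g) =
          tm N ((mulO hδO hγO h4 h3 α : O) : Mat m)
            (kk r (mt z) ((mulO hδO hγO h4 h3 α : O) : Mat m) g) := by
        intro α
        rw [gb_kk_left hdγ h3]
        change _ = tm N (δ * (α : Mat m)) (kk r (mt z) (δ * (α : Mat m)) g)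
        rw [tm_unit h3]
      change (∑' α : O, tm N (α : Mat m) (kk r (γ * mt z) (α : Mat m) g)) = _
      rw [tsum_congr h5]
      exact (mulO hδO hγO h4 h3).tsum_eq
        (fun α : O => tm N (α : Mat m) (kk r (mt z) (α : Mat m) g))
    have hFb : ∀ z ∈ Om m C1, F z ≤ ENNReal.ofReal (C0 * l ^ (-N) * (K * r) ^ N) := by
      intro z hz
      have h5 : ∀ α : O, tm N (α : Mat m) (kk r (mt z) (α : Mat m) (γ0 * g)) =
          tm N ((mulOr hγ0O hδ0O h34 h43 α : O) : Mat m)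
            (kk r (mt z) ((mulOr hγ0O hδ0O h34 h43 α : O) : Mat m) g) := by
        intro α
        rw [gb_kk_right hd0]
        change _ = tm N ((α : Mat m) * γ0) (kk r (mt z) ((α : Mat m) * γ0) g)
        rw [tm_unit' h34]
      have h6 : F z = ∑' α : O, tm N (α : Mat m) (kk r (mt z) (α : Mat m) (γ0 * g)) := by
        rw [tsum_congr h5]
        exact ((mulOr hγ0O hδ0O h34 h43).tsum_eq
          (fun α : O => tm N (α : Mat m) (kk r (mt z) (α : Mat m) g))).symm
      rw [h6]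
      exact hsumO r hr (fun x => kk r (mt z) x (γ0 * g)) (hfirst r hr z hz _ hg' hg2)
    refine (hcovD F hFm hFi).trans ?_
    refine (setLIntegral_mono' hOmm hFb).trans ?_
    rw [setLIntegral_const, hMe, ← ENNReal.ofReal_mul (by positivity)]
    refine ENNReal.ofReal_le_ofReal ?_
    rw [hKr]
    have h8 : 0 ≤ C0 * l' ^ (-N) * K ^ N * M * r ^ N := by positivity
    nlinarith
  · -- second sum
    let F : V m → ENNReal := fun z =>
      ∑' β : Dual O, tm N (β : Mat m) (kk r g (β : Mat m) (mt z))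
    have hFe : ∀ z : V m, (∑' β : Dual O, (if (β : Mat m) = 0 then 0 else
        ENNReal.ofReal ((1 + sz (kk r g (β : Mat m) (mt z))) ^ (-N)))) = F z := by
      intro z
      refine tsum_congr fun α => ?_
      unfold tm
      by_cases h : (α : Mat m) = 0
      · simp only [h, if_true]
      · simp only [h, if_false]
    simp only [hFe]
    have hFm : Measurable F := Measurable.ennreal_tsum fun α => (tm_meas hMSR N r _ g).2
    have hFi : ∀ γ ∈ UnitsOf O, ∀ z : V m, (mt z).det ≠ 0 →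
        F (fun i j => (γ * mt z) i j) = F z := by
      intro γ hγ z _
      have hdγ := hdet γ hγ
      obtain ⟨hγO, δ, hδO, h3, h4⟩ := hγ
      have h5 : ∀ α : Dual O, tm N (α : Mat m) (kk r g (α : Mat m) (γ * mt z)) =
          tm N ((mulDr hγO hδO h3 h4 α : Dual O) : Mat m)
            (kk r g ((mulDr hγO hδO h3 h4 α : Dual O) : Mat m) (mt z)) := by
        intro α
        rw [gb_kk_right hdγ]
        change _ = tm N ((α : Mat m) * γ) (kk r g ((α : Mat m) * γ) (mt z))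
        rw [tm_unit' h3]
      change (∑' α : Dual O, tm N (α : Mat m) (kk r g (α : Mat m) (γ * mt z))) = _
      rw [tsum_congr h5]
      exact (mulDr hγO hδO h3 h4).tsum_eq
        (fun α : Dual O => tm N (α : Mat m) (kk r g (α : Mat m) (mt z)))
    have hFb : ∀ z ∈ Om m C1, F z ≤ ENNReal.ofReal (C0 * l' ^ (-N) * (K * r) ^ N) := by
      intro z hz
      have h5 : ∀ α : Dual O, tm N (α : Mat m) (kk r (γ0 * g) (α : Mat m) (mt z)) =
          tm N ((mulD hδ0O hγ0O h43 h34 α : Dual O) : Mat m)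
            (kk r g ((mulD hδ0O hγ0O h43 h34 α : Dual O) : Mat m) (mt z)) := by
        intro α
        rw [gb_kk_left hd0 h34]
        change _ = tm N (δ0 * (α : Mat m)) (kk r g (δ0 * (α : Mat m)) (mt z))
        rw [tm_unit h34]
      have h6 : F z = ∑' α : Dual O, tm N (α : Mat m) (kk r (γ0 * g) (α : Mat m) (mt z)) := by
        rw [tsum_congr h5]
        exact ((mulD hδ0O hγ0O h43 h34).tsum_eq
          (fun α : Dual O => tm N (α : Mat m) (kk r g (α : Mat m) (mt z)))).symm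
      rw [h6]
      exact hsumD r hr (fun x => kk r (γ0 * g) x (mt z)) (hsecond r hr z hz _ hg' hg1)
    refine (hcovD F hFm hFi).trans ?_
    refine (setLIntegral_mono' hOmm hFb).trans ?_
    rw [setLIntegral_const, hMe, ← ENNReal.ofReal_mul (by positivity)]
    refine ENNReal.ofReal_le_ofReal ?_
    rw [hKr]
    have h8 : 0 ≤ C0 * l ^ (-N) * K ^ N * M * r ^ N := by positivity
    nlinarith

end Pool.Agent.H17.GM
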