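import Pool.Agent.H17.GM.FNT

/-!
# Board gmf_modules (MP_52e316_nt), row HS: the Hilbert-Schmidt bound
-/

set_option autoImplicit false

namespace Pool.Agent.H17.GM

open MeasureTheory Metric Pool.Agent.H34.GM

/-- terms with a condition -/
noncomputable def kt (P : Prop) (a : ENNReal) : ENNReal :=
  open Classical in if P then a else 0

theorem kt_congr {P Q : Prop} (h : P ↔ Q) (a : ENNReal) : kt P a = kt Q a := by
  unfold kt
  by_cases hp : P
  · rw [if_pos hp, if_pos (h.1 hp)]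
  · rw [if_neg hp, if_neg (fun hq => hp (h.2 hq))]

theorem Kp_eq {m : ℕ} (O : Subring (Mat m)) {R : Type} [Ring R] (π : Mat m → R) (u : Rˣ)
    (N r : ℝ) (g : Mat m) (x : Rˣ) (h : Mat m) (y : Rˣ) :
    Kp O π u N r g x h y = ∑' α : O, kt (π (α : Mat m) * (x : R) = (u : R) * (y : R))
      (ENNReal.ofReal ((1 + sz (kk r h (α : Mat m) g)) ^ (-N))) := rfl

section inv

variable {m q : ℕ} {O : Subring (Mat m)} {R : Type} [Ring R] {π : Mat m → R} {σ : R → Mat m}

/-- the class of a unit -/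
def pU (hR : Red m q O π σ) {γ δ : Mat m} (h1 : γ ∈ O) (h2 : δ ∈ O) (h3 : γ * δ = 1)
    (h4 : δ * γ = 1) : Rˣ where
  val := π γ
  inv := π δ
  val_inv := by rw [← hR.mul γ h1 δ h2, h3, hR.one]
  inv_val := by rw [← hR.mul δ h2 γ h1, h4, hR.one]

theorem hs_right (hR : Red m q O π σ) {γ δ : Mat m} (h1 : γ ∈ O) (h2 : δ ∈ O) (h3 : γ * δ = 1)
    (h4 : δ * γ = 1) (hd : |γ.det| = 1) (u : Rˣ) (N r : ℝ) (g : Mat m) (x : Rˣ) (h : Mat m)
    (y : Rˣ) : Kp O π u N r (γ * g) x h y =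
      Kp O π u N r g ((pU hR h1 h2 h3 h4)⁻¹ * x) h y := by
  rw [Kp_eq, Kp_eq]
  refine Eq.trans ?_ ((mulOr h1 h2 h3 h4).tsum_eq (fun α : O =>
    kt (π (α : Mat m) * (((pU hR h1 h2 h3 h4)⁻¹ * x : Rˣ) : R) = (u : R) * (y : R))
      (ENNReal.ofReal ((1 + sz (kk r h (α : Mat m) g)) ^ (-N)))))
  refine tsum_congr fun α => ?_
  rw [gb_kk_right hd]
  refine kt_congr ?_ _
  have e1 : π ((mulOr h1 h2 h3 h4 α : O) : Mat m) = π (α : Mat m) * π γ :=
    hR.mul _ α.2 γ h1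
  have e2 : (((pU hR h1 h2 h3 h4)⁻¹ * x : Rˣ) : R) = π δ * (x : R) := rfl
  have e3 : π γ * π δ = 1 := (pU hR h1 h2 h3 h4).val_inv
  rw [e1, e2, mul_assoc, ← mul_assoc (π γ), e3, one_mul]

theorem hs_left (hR : Red m q O π σ) {γ δ : Mat m} (h1 : γ ∈ O) (h2 : δ ∈ O) (h3 : γ * δ = 1)
    (h4 : δ * γ = 1) (hd : |γ.det| = 1) (u : Rˣ) (hu : ∀ a : R, (u : R) * a = a * u) (N r : ℝ)
    (g : Mat m) (x : Rˣ) (h : Mat m) (y : Rˣ) : Kp O π u N r g x (γ * h) y =
      Kp O π u N r g x h ((pU hR h1 h2 h3 h4)⁻¹ * y) := by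
  rw [Kp_eq, Kp_eq]
  refine Eq.trans ?_ ((mulO h2 h1 h4 h3).tsum_eq (fun α : O =>
    kt (π (α : Mat m) * (x : R) = (u : R) * (((pU hR h1 h2 h3 h4)⁻¹ * y : Rˣ) : R))
      (ENNReal.ofReal ((1 + sz (kk r h (α : Mat m) g)) ^ (-N)))))
  refine tsum_congr fun α => ?_
  rw [gb_kk_left hd h3]
  refine kt_congr ?_ _
  have e1 : π ((mulO h2 h1 h4 h3 α : O) : Mat m) = π δ * π (α : Mat m) :=
    hR.mul δ h2 _ α.2
  have e2 : (((pU hR h1 h2 h3 h4)⁻¹ * y : Rˣ) : R) = π δ * (y : R) := rfl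
  have e3 : π γ * π δ = 1 := (pU hR h1 h2 h3 h4).val_inv
  rw [e1, e2, ← mul_assoc (u : R), hu (π δ), mul_assoc, mul_assoc]
  constructor
  · intro h
    rw [h]
  · intro h
    have := congrArg (fun w => π γ * w) h
    simpa [← mul_assoc, e3] using this

end inv

theorem Kp_meas (hMSR : T_MSR) {m : ℕ} {O : Subring (Mat m)}
    {b : Module.Basis (Fin m × Fin m) ℝ (Mat m)} (hDO : DivOrder m O b) {R : Type} [Ring R]
    (π : Mat m → R) (u : Rˣ) (N r : ℝ) (x y : Rˣ) :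
    Measurable (fun p : V m × V m => Kp O π u N r (mt p.1) x (mt p.2) y) := by
  have hcnt : Countable O := (hMSR.2.1 m O b hDO).1
  obtain ⟨h1, -, -⟩ := hMSR
  obtain ⟨a1, a2, a3, a4, a5, a6, a7, a8⟩ := h1 m
  simp only [Kp_eq]
  refine Measurable.ennreal_tsum fun α => ?_
  unfold kt
  by_cases hc : π (α : Mat m) * (x : R) = (u : R) * (y : R)
  · simp only [if_pos hc]
    have h2 := (a7 r (α : Mat m)).comp (measurable_snd.prodMk measurable_fst :
      Measurable (fun p : V m × V m => (p.2, p.1)))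
    exact ((measurable_const.add (a4.comp h2)).pow_const _).ennreal_ofReal
  · simp only [if_neg hc]
    exact measurable_const

/-- the discrete kernel -/
noncomputable def Kd {m : ℕ} (O : Subring (Mat m)) {R : Type} [Ring R] (π : Mat m → R) (u : Rˣ)
    (N r : ℝ) (x y : Rˣ) : ENNReal :=
  ∑' α : O, kt (π (α : Mat m) * (x : R) = (u : R) * (y : R))
      (ENNReal.ofReal ((1 + sz (α : Mat m) / r) ^ (-N)))

theorem kt_mono {P : Prop} {a b : ENNReal} (h : a ≤ b) : kt P a ≤ kt P b := by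
  unfold kt
  by_cases hp : P
  · rw [if_pos hp, if_pos hp]; exact h
  · rw [if_neg hp, if_neg hp]

theorem kt_mul (P : Prop) (c a : ENNReal) : kt P (c * a) = c * kt P a := by
  unfold kt
  by_cases hp : P
  · rw [if_pos hp, if_pos hp]
  · rw [if_neg hp, if_neg hp, mul_zero]

theorem Kp_le {m : ℕ} {O : Subring (Mat m)} {R : Type} [Ring R] (π : Mat m → R) (u : Rˣ)
    {N r C1 : ℝ} (h1m : 1 ≤ m) (hN : 0 < N) (hr : 0 < r) (hC1 : 0 < C1) {g h : V m}
    (hg : g ∈ Om m C1) (hh : h ∈ Om m C1) (x y : Rˣ) :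
    Kp O π u N r (mt g) x (mt h) y ≤
      ENNReal.ofReal ((max 1 (m * m * C1 ^ 2 * Real.exp 1 ^ 2)) ^ N) * Kd O π u N r x y := by
  set C2 : ℝ := max 1 (m * m * C1 ^ 2 * Real.exp 1 ^ 2) with hC2
  have hC21 : 1 ≤ C2 := le_max_left _ _
  rw [Kp_eq]
  unfold Kd
  rw [← ENNReal.tsum_mul_left]
  refine ENNReal.tsum_le_tsum fun α => ?_
  rw [← kt_mul]
  refine kt_mono ?_
  rw [← ENNReal.ofReal_mul (by positivity)]
  refine ENNReal.ofReal_le_ofReal ?_
  have hgd := gb_shell_det hg.1 h1m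
  have hhd := gb_shell_det hh.1 h1m
  have k1 := gb_kk_size r hr hhd hgd (α : Mat m)
  have k0 := gb_sz_nonneg (kk r (mt h) (α : Mat m) (mt g))
  have s0 := gb_sz_nonneg (α : Mat m)
  have hexp := Real.exp_pos 1
  have hag := gb_aN_pos hgd
  have k2 : (m : ℝ) * m * sz (mt h) * sz (kk r (mt h) (α : Mat m) (mt g)) * sz (mt g)⁻¹ ≤
      m * m * (C1 * Real.exp 1) * sz (kk r (mt h) (α : Mat m) (mt g)) * C1 := by
    have := hh.2.1
    have := hg.2.2
    have := gb_sz_nonneg (mt g)⁻¹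
    gcongr
  have k3 : sz (α : Mat m) / r ≤ C2 * sz (kk r (mt h) (α : Mat m) (mt g)) := by
    have k4 := k1.trans k2
    have k5 : r⁻¹ * sz (α : Mat m) ≤ aN (mt g) * (r⁻¹ * aN (mt h) / aN (mt g) *
        sz (α : Mat m)) := by
      have e1 : aN (mt g) * (r⁻¹ * aN (mt h) / aN (mt g) * sz (α : Mat m)) =
          aN (mt h) * (r⁻¹ * sz (α : Mat m)) := by field_simp
      rw [e1]
      have := hh.1.1
      have h0 : 0 ≤ r⁻¹ * sz (α : Mat m) := by positivity
      nlinarith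
    have k6 := mul_le_mul_of_nonneg_left k4 hag.le
    have k7 : aN (mt g) * (m * m * (C1 * Real.exp 1) *
        sz (kk r (mt h) (α : Mat m) (mt g)) * C1) ≤
        Real.exp 1 * (m * m * (C1 * Real.exp 1) *
        sz (kk r (mt h) (α : Mat m) (mt g)) * C1) := by
      have := hg.1.2.le
      gcongr
    have k8 : Real.exp 1 * (m * m * (C1 * Real.exp 1) *
        sz (kk r (mt h) (α : Mat m) (mt g)) * C1) ≤
        C2 * sz (kk r (mt h) (α : Mat m) (mt g)) := by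
      have e2 : Real.exp 1 * (m * m * (C1 * Real.exp 1) *
          sz (kk r (mt h) (α : Mat m) (mt g)) * C1) =
          (m * m * C1 ^ 2 * Real.exp 1 ^ 2) * sz (kk r (mt h) (α : Mat m) (mt g)) := by ring
      rw [e2]
      have := le_max_right 1 ((m : ℝ) * m * C1 ^ 2 * Real.exp 1 ^ 2)
      gcongr
    rw [div_eq_inv_mul]
    exact ((k5.trans k6).trans k7).trans k8
  have k9 : 0 < 1 + sz (α : Mat m) / r := by positivity
  have k10 : (1 + sz (α : Mat m) / r) / C2 ≤ 1 + sz (kk r (mt h) (α : Mat m) (mt g)) := by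
    rw [div_le_iff₀ (by linarith)]
    nlinarith
  refine (Real.rpow_le_rpow_of_nonpos (by positivity) k10 (by linarith)).trans (le_of_eq ?_)
  rw [Real.div_rpow k9.le (by linarith), Real.rpow_neg (by linarith : (0 : ℝ) ≤ C2),
    div_inv_eq_mul, mul_comm]

theorem kt_pair {R : Type} [Ring R] (u : Rˣ) (hu : ∀ a : R, (u : R) * a = a * u) (A B : R)
    (x z : Rˣ) (a b : ENNReal) :
    ∑' y : Rˣ, kt (A * (x : R) = (u : R) * (y : R)) a * kt (B * (y : R) = (u : R) * (z : R)) b ≤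
      kt (B * (A * (x : R)) = ((u * u : Rˣ) : R) * (z : R)) (a * b) := by
  unfold kt
  by_cases hex : ∃ y : Rˣ, A * (x : R) = (u : R) * (y : R) ∧ B * (y : R) = (u : R) * (z : R)
  · obtain ⟨y0, h1, h2⟩ := hex
    rw [tsum_eq_single y0]
    · rw [if_pos h1, if_pos h2, if_pos]
      rw [h1, ← mul_assoc, ← hu B, mul_assoc, h2, Units.val_mul, mul_assoc]
    · intro y hy
      rw [if_neg, zero_mul]
      intro h3
      apply hy
      rw [h1] at h3
      exact Units.ext (u.mul_right_inj.1 h3).symm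
  · have h0 : ∀ y : Rˣ, (open Classical in (if A * (x : R) = (u : R) * (y : R) then a else 0) *
        (if B * (y : R) = (u : R) * (z : R) then b else 0)) = 0 := by
      intro y
      by_cases h1 : A * (x : R) = (u : R) * (y : R)
      · by_cases h2 : B * (y : R) = (u : R) * (z : R)
        · exact absurd ⟨y, h1, h2⟩ hex
        · rw [if_neg h2, mul_zero]
      · rw [if_neg h1, zero_mul]
    simp only [h0, tsum_zero]
    exact bot_le

theorem Kd_conv {m : ℕ} {O : Subring (Mat m)} {R : Type} [Ring R] (π : Mat m → R) (u : Rˣ)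
    (hu : ∀ a : R, (u : R) * a = a * u) {N r : ℝ} (hr : 0 < r) (x z : Rˣ) :
    ∑' y : Rˣ, Kd O π u N r x y * Kd O π u N r y z ≤
      ∑' p : O × O, kt (π (p.2 : Mat m) * (π (p.1 : Mat m) * (x : R)) =
        ((u * u : Rˣ) : R) * (z : R)) (ENNReal.ofReal
          (((1 + sz (p.1 : Mat m) / r) * (1 + sz (p.2 : Mat m) / r)) ^ (-N))) := by
  have e1 : ∀ y : Rˣ, Kd O π u N r x y * Kd O π u N r y z = ∑' α : O, ∑' β : O,
      kt (π (α : Mat m) * (x : R) = (u : R) * (y : R))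
        (ENNReal.ofReal ((1 + sz (α : Mat m) / r) ^ (-N))) *
      kt (π (β : Mat m) * (y : R) = (u : R) * (z : R))
        (ENNReal.ofReal ((1 + sz (β : Mat m) / r) ^ (-N))) := by
    intro y
    unfold Kd
    rw [← ENNReal.tsum_mul_right]
    exact tsum_congr fun α => ENNReal.tsum_mul_left.symm
  simp only [e1]
  rw [ENNReal.tsum_comm]
  have e2 : ∀ α : O, (∑' y : Rˣ, ∑' β : O,
      kt (π (α : Mat m) * (x : R) = (u : R) * (y : R))
        (ENNReal.ofReal ((1 + sz (α : Mat m) / r) ^ (-N))) *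
      kt (π (β : Mat m) * (y : R) = (u : R) * (z : R))
        (ENNReal.ofReal ((1 + sz (β : Mat m) / r) ^ (-N)))) ≤ ∑' β : O,
      kt (π (β : Mat m) * (π (α : Mat m) * (x : R)) = ((u * u : Rˣ) : R) * (z : R))
        (ENNReal.ofReal (((1 + sz (α : Mat m) / r) * (1 + sz (β : Mat m) / r)) ^ (-N))) := by
    intro α
    rw [ENNReal.tsum_comm]
    refine ENNReal.tsum_le_tsum fun β => ?_
    refine (kt_pair u hu _ _ x z _ _).trans (le_of_eq ?_)
    have s1 := gb_sz_nonneg (α : Mat m)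
    have s2 := gb_sz_nonneg (β : Mat m)
    rw [← ENNReal.ofReal_mul (by positivity), Real.mul_rpow (by positivity) (by positivity)]
  refine (ENNReal.tsum_le_tsum e2).trans (le_of_eq ?_)
  exact (ENNReal.tsum_prod (f := fun (α β : O) =>
    kt (π (β : Mat m) * (π (α : Mat m) * (x : R)) = ((u * u : Rˣ) : R) * (z : R))
      (ENNReal.ofReal (((1 + sz (α : Mat m) / r) * (1 + sz (β : Mat m) / r)) ^ (-N))))).symm

section comps

variable {m : ℕ} {O : Subring (Mat m)} {b : Module.Basis (Fin m × Fin m) ℝ (Mat m)}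
  {R : Type} [Ring R]

theorem Kp_m1 (hMSR : T_MSR) (hDO : DivOrder m O b)
    (π : Mat m → R) (u : Rˣ) (N r : ℝ) (x y : Rˣ) :
    Measurable (fun w : (V m × V m) × V m => Kp O π u N r (mt w.1.1) x (mt w.2) y) := by
  have key : Measurable (fun p : V m × V m => Kp O π u N r (mt p.1) x (mt p.2) y) :=
    Kp_meas hMSR hDO π u N r x y
  have pr : Measurable (fun w : (V m × V m) × V m => ((w.1.1, w.2) : V m × V m)) :=
    (measurable_fst.comp measurable_fst).prodMk measurable_snd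
  have h3 := key.comp pr
  exact h3

theorem Kp_m2 (hMSR : T_MSR) (hDO : DivOrder m O b)
    (π : Mat m → R) (u : Rˣ) (N r : ℝ) (x y : Rˣ) :
    Measurable (fun w : (V m × V m) × V m => Kp O π u N r (mt w.2) x (mt w.1.2) y) := by
  have key : Measurable (fun p : V m × V m => Kp O π u N r (mt p.1) x (mt p.2) y) :=
    Kp_meas hMSR hDO π u N r x y
  have pr : Measurable (fun w : (V m × V m) × V m => ((w.2, w.1.2) : V m × V m)) :=
    measurable_snd.prodMk (measurable_snd.comp measurable_fst)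
  have h3 := key.comp pr
  exact h3

theorem Kp_m3 (hMSR : T_MSR) (hDO : DivOrder m O b)
    (π : Mat m → R) (u : Rˣ) (N r : ℝ) (x y : Rˣ) (g : V m) :
    Measurable (fun h : V m => Kp O π u N r (mt g) x (mt h) y) := by
  have key : Measurable (fun p : V m × V m => Kp O π u N r (mt p.1) x (mt p.2) y) :=
    Kp_meas hMSR hDO π u N r x y
  have pr : Measurable (fun h : V m => ((g, h) : V m × V m)) :=
    measurable_const.prodMk measurable_id
  have h3 := key.comp pr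
  exact h3

theorem Kp_m4 (hMSR : T_MSR) (hDO : DivOrder m O b)
    (π : Mat m → R) (u : Rˣ) (N r : ℝ) (x y : Rˣ) (k : V m) :
    Measurable (fun h : V m => Kp O π u N r (mt h) x (mt k) y) := by
  have key : Measurable (fun p : V m × V m => Kp O π u N r (mt p.1) x (mt p.2) y) :=
    Kp_meas hMSR hDO π u N r x y
  have pr : Measurable (fun h : V m => ((h, k) : V m × V m)) :=
    measurable_id.prodMk measurable_const
  have h3 := key.comp pr
  exact h3

end comps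

/-- the convolution -/
noncomputable def AS {m : ℕ} (O : Subring (Mat m)) {R : Type} [Ring R] (π : Mat m → R) (u : Rˣ)
    (N r : ℝ) (S : Set (V m)) (g : V m) (x : Rˣ) (k : V m) (z : Rˣ) : ENNReal :=
  ∑' y : Rˣ, ∫⁻ h in S, Kp O π u N r (mt g) x (mt h) y * Kp O π u N r (mt h) y (mt k) z ∂(hm m)

/-- the sum of the squares -/
noncomputable def JS {m : ℕ} (O : Subring (Mat m)) {R : Type} [Ring R] (π : Mat m → R) (u : Rˣ)
    (N r : ℝ) (S : Set (V m)) (g k : V m) : ENNReal :=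
  ∑' x : Rˣ, ∑' z : Rˣ, (AS O π u N r S g x k z) ^ 2

section steps

variable {m q : ℕ} {O : Subring (Mat m)} {b : Module.Basis (Fin m × Fin m) ℝ (Mat m)}
  {R : Type} [Ring R] [Fintype R] {π : Mat m → R} {σ : R → Mat m}

theorem AS_meas (hMSR : T_MSR) (hDO : DivOrder m O b) (u : Rˣ) (N r : ℝ) (S : Set (V m))
    (x z : Rˣ) : Measurable fun p : V m × V m => AS O π u N r S p.1 x p.2 z := by
  have hSF : SigmaFinite (hm m) := (hMSR.1 m).2.2.2.2.1
  unfold AS
  refine Measurable.ennreal_tsum fun y => ?_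
  have h1 : Measurable fun w : (V m × V m) × V m =>
      Kp O π u N r (mt w.1.1) x (mt w.2) y * Kp O π u N r (mt w.2) y (mt w.1.2) z := by
    exact (Kp_m1 hMSR hDO π u N r x y).mul (Kp_m2 hMSR hDO π u N r y z)
  exact h1.lintegral_prod_right'

theorem AS_k (hR : Red m q O π σ) {γ δ : Mat m} (h1 : γ ∈ O) (h2 : δ ∈ O) (h3 : γ * δ = 1)
    (h4 : δ * γ = 1) (hd : |γ.det| = 1) (u : Rˣ) (hu : ∀ a : R, (u : R) * a = a * u) (N r : ℝ)
    (S : Set (V m)) (g : V m) (x : Rˣ) (k : V m) (z : Rˣ) :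
    AS O π u N r S g x (fun i j => (γ * mt k) i j) z =
      AS O π u N r S g x k ((pU hR h1 h2 h3 h4)⁻¹ * z) := by
  unfold AS
  refine tsum_congr fun y => lintegral_congr fun h => ?_
  rw [← hs_left hR h1 h2 h3 h4 hd u hu N r (mt h) y (mt k) z]
  rfl

theorem AS_g (hR : Red m q O π σ) {γ δ : Mat m} (h1 : γ ∈ O) (h2 : δ ∈ O) (h3 : γ * δ = 1)
    (h4 : δ * γ = 1) (hd : |γ.det| = 1) (u : Rˣ) (N r : ℝ)
    (S : Set (V m)) (g : V m) (x : Rˣ) (k : V m) (z : Rˣ) :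
    AS O π u N r S (fun i j => (γ * mt g) i j) x k z =
      AS O π u N r S g ((pU hR h1 h2 h3 h4)⁻¹ * x) k z := by
  unfold AS
  refine tsum_congr fun y => lintegral_congr fun h => ?_
  rw [← hs_right hR h1 h2 h3 h4 hd u N r (mt g) x (mt h) y]
  rfl

/-- the integrand -/
noncomputable def IS (O : Subring (Mat m)) (π : Mat m → R) (u : Rˣ)
    (N r : ℝ) (g : V m) (x : Rˣ) (k : V m) (z : Rˣ) (h : V m) : ENNReal :=
  ∑' y : Rˣ, Kp O π u N r (mt g) x (mt h) y * Kp O π u N r (mt h) y (mt k) z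

theorem IS_inv (hR : Red m q O π σ) {γ δ : Mat m} (h1 : γ ∈ O) (h2 : δ ∈ O) (h3 : γ * δ = 1)
    (h4 : δ * γ = 1) (hd : |γ.det| = 1) (u : Rˣ) (hu : ∀ a : R, (u : R) * a = a * u) (N r : ℝ)
    (g : V m) (x : Rˣ) (k : V m) (z : Rˣ) (h : V m) :
    IS O π u N r g x k z (fun i j => (γ * mt h) i j) = IS O π u N r g x k z h := by
  unfold IS
  refine Eq.trans ?_ ((Equiv.mulLeft (pU hR h1 h2 h3 h4)⁻¹).tsum_eq (fun y =>
    Kp O π u N r (mt g) x (mt h) y * Kp O π u N r (mt h) y (mt k) z))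
  refine tsum_congr fun y => ?_
  rw [Equiv.coe_mulLeft, ← hs_left hR h1 h2 h3 h4 hd u hu N r (mt g) x (mt h) y,
    ← hs_right hR h1 h2 h3 h4 hd u N r (mt h) y (mt k) z]
  rfl

theorem AS_eq (hMSR : T_MSR) (hDO : DivOrder m O b) (u : Rˣ) (N r : ℝ) (S : Set (V m))
    (g : V m) (x : Rˣ) (k : V m) (z : Rˣ) :
    Measurable (IS O π u N r g x k z) ∧
    AS O π u N r S g x k z = ∫⁻ h in S, IS O π u N r g x k z h ∂(hm m) := by
  have hm1 : ∀ y : Rˣ, Measurable fun h : V m => Kp O π u N r (mt g) x (mt h) y *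
      Kp O π u N r (mt h) y (mt k) z := by
    intro y
    exact (Kp_m3 hMSR hDO π u N r x y g).mul (Kp_m4 hMSR hDO π u N r y z k)
  refine ⟨Measurable.ennreal_tsum hm1, ?_⟩
  unfold AS IS
  rw [lintegral_tsum fun y => (hm1 y).aemeasurable]

end steps


/-- the sum over the pairs -/
noncomputable def SP {m : ℕ} (O : Subring (Mat m)) {R : Type} [Ring R] (π : Mat m → R) (u : Rˣ)
    (N r : ℝ) (x z : Rˣ) : ENNReal :=
  ∑' p : O × O, kt (π (p.2 : Mat m) * (π (p.1 : Mat m) * (x : R)) =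
        ((u * u : Rˣ) : R) * (z : R)) (ENNReal.ofReal
          (((1 + sz (p.1 : Mat m) / r) * (1 + sz (p.2 : Mat m) / r)) ^ (-N)))

theorem AS_bound {m : ℕ} {O : Subring (Mat m)} {R : Type} [Ring R] (π : Mat m → R) (u : Rˣ)
    (hu : ∀ a : R, (u : R) * a = a * u) (hMSR : T_MSR) (hHAR : T_HAR)
    {N r C1 : ℝ} (h1m : 1 ≤ m) (hN : 0 < N) (hr : 0 < r) (hC1 : 0 < C1) {g k : V m}
    (hg : g ∈ Om m C1) (hk : k ∈ Om m C1) (x z : Rˣ) :
    AS O π u N r (Om m C1) g x k z ≤ ENNReal.ofReal ((hm m (Om m C1)).toReal *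
      ((max 1 (m * m * C1 ^ 2 * Real.exp 1 ^ 2)) ^ N) *
      ((max 1 (m * m * C1 ^ 2 * Real.exp 1 ^ 2)) ^ N)) * SP O π u N r x z := by
  have hOmf := gb_Om_fin hHAR h1m C1
  have hOmm := gb_Om_meas hMSR (m := m) C1
  set c : ℝ := (max 1 (m * m * C1 ^ 2 * Real.exp 1 ^ 2)) ^ N with hc
  have hc0 : 0 < c := Real.rpow_pos_of_pos (lt_of_lt_of_le one_pos (le_max_left _ _)) _
  have hM : 0 ≤ (hm m (Om m C1)).toReal := ENNReal.toReal_nonneg
  have hMe : hm m (Om m C1) = ENNReal.ofReal (hm m (Om m C1)).toReal :=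
    (ENNReal.ofReal_toReal hOmf.ne).symm
  unfold AS
  have h1 : ∀ y : Rˣ, (∫⁻ h in Om m C1, Kp O π u N r (mt g) x (mt h) y *
      Kp O π u N r (mt h) y (mt k) z ∂(hm m)) ≤
      ENNReal.ofReal ((hm m (Om m C1)).toReal * c * c) *
        (Kd O π u N r x y * Kd O π u N r y z) := by
    intro y
    have h2 : ∀ h ∈ Om m C1, Kp O π u N r (mt g) x (mt h) y *
        Kp O π u N r (mt h) y (mt k) z ≤
        (ENNReal.ofReal c * Kd O π u N r x y) *
          (ENNReal.ofReal c * Kd O π u N r y z) := by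
      intro h hh
      exact mul_le_mul' (Kp_le π u h1m hN hr hC1 hg hh x y)
        (Kp_le π u h1m hN hr hC1 hh hk y z)
    refine (setLIntegral_mono' hOmm h2).trans (le_of_eq ?_)
    rw [setLIntegral_const, ENNReal.ofReal_mul (by positivity),
      ENNReal.ofReal_mul hM, ← hMe]
    ring
  refine (ENNReal.tsum_le_tsum h1).trans ?_
  rw [ENNReal.tsum_mul_left]
  gcongr
  exact Kd_conv π u hu hr x z

/-- Row HS. -/
theorem pf_HS (hNRD : T_NRD) (hCMP : T_CMP) (hMSR : T_MSR) (hHAR : T_HAR) (hCOV : T_COV)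
    (hHSL : T_HSL) : T_HS := by
  intro m O b d hOrd s B hs hB
  have h1m : 1 ≤ m := hOrd.one_le
  have hDO := hOrd.ord
  have hs0 : 0 < s := lt_of_le_of_lt (sq_nonneg _) hs
  have hN0 : 0 < 2 * s := by linarith
  obtain ⟨C1, hC1, hcmp⟩ := hCMP m O b h1m hDO
  obtain ⟨C3, hC3, hhsl⟩ := hHSL m O b d hOrd s B hs hB
  have hdet : ∀ γ ∈ UnitsOf O, |γ.det| = 1 := (hNRD m O b h1m hDO).2.2.2
  have hOmf := gb_Om_fin hHAR h1m C1
  have hOmm := gb_Om_meas hMSR (m := m) C1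
  have hcov := gb_Om_cover hNRD h1m hDO hC1 hcmp
  obtain ⟨M, hMd⟩ : ∃ M : ℝ, M = (hm m (Om m C1)).toReal := ⟨_, rfl⟩
  have hM : 0 ≤ M := by rw [hMd]; exact ENNReal.toReal_nonneg
  have hMe : hm m (Om m C1) = ENNReal.ofReal M := by
    rw [hMd]
    exact (ENNReal.ofReal_toReal hOmf.ne).symm
  have hSF : SigmaFinite (hm m) := (hMSR.1 m).2.2.2.2.1
  obtain ⟨c, hc⟩ : ∃ c : ℝ, c = (max 1 (m * m * C1 ^ 2 * Real.exp 1 ^ 2)) ^ (2 * s) := ⟨_, rfl⟩
  have hc0 : 0 < c := by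
    rw [hc]
    exact Real.rpow_pos_of_pos (lt_of_lt_of_le one_pos (le_max_left _ _)) _
  refine ⟨(M * c * c) ^ 2 * C3 * M * M + 1, by positivity, ?_⟩
  intro q R _ _ π σ hLev u hu r hr hrB D hD
  have hR := hLev.red
  have hcovD := hCOV m O b h1m hDO D hD (Om m C1) hOmm hcov
  have hA1 : ∀ g x k z, AS O π u (2 * s) r D g x k z ≤ AS O π u (2 * s) r (Om m C1) g x k z := by
    intro g x k z
    rw [(AS_eq hMSR hDO u (2 * s) r D g x k z).2, (AS_eq hMSR hDO u (2 * s) r (Om m C1) g x k z).2]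
    refine hcovD _ (AS_eq hMSR hDO u (2 * s) r D g x k z).1 ?_
    intro γ hγ h _
    have hdγ := hdet γ hγ
    obtain ⟨hγO, δ, hδO, h3, h4⟩ := hγ
    exact IS_inv hR hγO hδO h3 h4 hdγ u hu (2 * s) r g x k z h
  have hJm : Measurable fun p : V m × V m => JS O π u (2 * s) r (Om m C1) p.1 p.2 := by
    unfold JS
    exact Measurable.ennreal_tsum fun x => Measurable.ennreal_tsum fun z =>
      (AS_meas hMSR hDO u (2 * s) r (Om m C1) x z).pow_const 2
  have hstep1 : ∀ g, ∫⁻ k in D, JS O π u (2 * s) r (Om m C1) g k ∂(hm m) ≤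
      ∫⁻ k in Om m C1, JS O π u (2 * s) r (Om m C1) g k ∂(hm m) := by
    intro g
    have pr : Measurable (fun k : V m => ((g, k) : V m × V m)) :=
      measurable_const.prodMk measurable_id
    have h1 := hJm.comp pr
    refine hcovD (JS O π u (2 * s) r (Om m C1) g) h1 ?_
    intro γ hγ k _
    have hdγ := hdet γ hγ
    obtain ⟨hγO, δ, hδO, h3, h4⟩ := hγ
    unfold JS
    refine tsum_congr fun x => ?_
    refine Eq.trans ?_ ((Equiv.mulLeft (pU hR hγO hδO h3 h4)⁻¹).tsum_eq (fun z =>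
      (AS O π u (2 * s) r (Om m C1) g x k z) ^ 2))
    refine tsum_congr fun z => ?_
    rw [AS_k hR hγO hδO h3 h4 hdγ u hu]
    rfl
  have hstep2 : ∫⁻ g in D, ∫⁻ k in Om m C1, JS O π u (2 * s) r (Om m C1) g k ∂(hm m) ∂(hm m) ≤
      ∫⁻ g in Om m C1, ∫⁻ k in Om m C1, JS O π u (2 * s) r (Om m C1) g k
        ∂(hm m) ∂(hm m) := by
    refine hcovD (fun g => ∫⁻ k in Om m C1, JS O π u (2 * s) r (Om m C1) g k ∂(hm m))
      hJm.lintegral_prod_right' ?_
    intro γ hγ g _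
    have hdγ := hdet γ hγ
    obtain ⟨hγO, δ, hδO, h3, h4⟩ := hγ
    refine lintegral_congr fun k => ?_
    unfold JS
    refine Eq.trans ?_ ((Equiv.mulLeft (pU hR hγO hδO h3 h4)⁻¹).tsum_eq (fun x =>
      ∑' z : Rˣ, (AS O π u (2 * s) r (Om m C1) g x k z) ^ 2))
    refine tsum_congr fun x => tsum_congr fun z => ?_
    rw [AS_g hR hγO hδO h3 h4 hdγ u]
    rfl
  -- the bound on the reduced part
  have hAb : ∀ g ∈ Om m C1, ∀ k ∈ Om m C1, ∀ x z : Rˣ, AS O π u (2 * s) r (Om m C1) g x k z ≤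
      ENNReal.ofReal (M * c * c) * SP O π u (2 * s) r x z := by
    intro g hg k hk x z
    rw [hMd, hc]
    exact AS_bound π u hu hMSR hHAR h1m hN0 hr hC1 hg hk x z
  have hv : ∀ a : R, ((u * u : Rˣ) : R) * a = a * ((u * u : Rˣ) : R) := by
    intro a
    rw [Units.val_mul, mul_assoc, hu a, ← mul_assoc, hu a, mul_assoc]
  have hS : ∑' x : Rˣ, ∑' z : Rˣ, (SP O π u (2 * s) r x z) ^ 2 ≤
      ENNReal.ofReal (C3 * (q : ℝ) ^ (m ^ 2) * r ^ (2 * s)) :=
    hhsl q R π σ hLev (u * u) hv r hr hrB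
  have hJb : ∀ g ∈ Om m C1, ∀ k ∈ Om m C1, JS O π u (2 * s) r (Om m C1) g k ≤
      ENNReal.ofReal (M * c * c) ^ 2 *
      ENNReal.ofReal (C3 * (q : ℝ) ^ (m ^ 2) * r ^ (2 * s)) := by
    intro g hg k hk
    have h1 : JS O π u (2 * s) r (Om m C1) g k ≤ ∑' x : Rˣ, ∑' z : Rˣ,
        (ENNReal.ofReal (M * c * c) * SP O π u (2 * s) r x z) ^ 2 :=
      ENNReal.tsum_le_tsum fun x => ENNReal.tsum_le_tsum fun z =>
        pow_le_pow_left₀ bot_le (hAb g hg k hk x z) 2
    refine h1.trans ?_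
    simp only [mul_pow, ENNReal.tsum_mul_left]
    gcongr
  have hfin : ∫⁻ g in Om m C1, ∫⁻ k in Om m C1, JS O π u (2 * s) r (Om m C1) g k
      ∂(hm m) ∂(hm m) ≤
      ENNReal.ofReal (((M * c * c) ^ 2 * C3 * M * M + 1) * (q : ℝ) ^ (m ^ 2) * r ^ (2 * s)) := by
    refine (setLIntegral_mono' hOmm (fun g hg => setLIntegral_mono' hOmm (hJb g hg))).trans ?_
    rw [setLIntegral_const, setLIntegral_const, hMe, ← ENNReal.ofReal_pow (by positivity),
      ← ENNReal.ofReal_mul (by positivity), ← ENNReal.ofReal_mul (by positivity),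
      ← ENNReal.ofReal_mul (by positivity)]
    refine ENNReal.ofReal_le_ofReal ?_
    have h0 : 0 ≤ (q : ℝ) ^ (m ^ 2) * r ^ (2 * s) := by positivity
    nlinarith
  refine le_trans ?_ (hstep2.trans hfin)
  refine lintegral_mono fun g => ?_
  refine le_trans (lintegral_mono fun k => ?_) (hstep1 g)
  exact ENNReal.tsum_le_tsum fun x => ENNReal.tsum_le_tsum fun z =>
    pow_le_pow_left₀ bot_le (hA1 g x k z) 2

end Pool.Agent.H17.GM
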