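import Pool.Agent.H34.GM.Targets2

/-!
# Board gmf_modules (MP_52e316_nt), row MNK: Minkowski
-/

set_option autoImplicit false

namespace Pool.Agent.H17.GM

open MeasureTheory Metric Pool.Agent.H34.GM

/-- right multiplication -/
noncomputable def rM {m : ℕ} (g : Mat m) : V m →ₗ[ℝ] V m :=
  LinearMap.pi (fun i => (Matrix.toLin' g.transpose).comp (LinearMap.proj i))

theorem rM_apply {m : ℕ} (g : Mat m) (z : V m) : rM g z = fun i j => (mt z * g) i j := by
  funext i j
  simp [rM, Matrix.mul_apply, Matrix.mulVec, dotProduct, mul_comm]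

theorem rM_det {m : ℕ} (g : Mat m) : LinearMap.det (rM g) = g.det ^ m := by
  unfold rM
  rw [LinearMap.det_pi]
  simp [LinearMap.det_toLin', Matrix.det_transpose]

theorem aN_pow {m : ℕ} (hm : 1 ≤ m) (g : Mat m) : aN g ^ (m * m) = |g.det| ^ m := by
  unfold aN
  rw [pow_mul]
  congr 1
  rw [← Real.rpow_natCast, ← Real.rpow_mul (abs_nonneg _), one_div,
    inv_mul_cancel₀ (by positivity), Real.rpow_one]

theorem aN_nonneg {m : ℕ} (g : Mat m) : 0 ≤ aN g := Real.rpow_nonneg (abs_nonneg _) _

theorem aN_pos {m : ℕ} {g : Mat m} (hg : g.det ≠ 0) : 0 < aN g :=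
  Real.rpow_pos_of_pos (abs_pos.2 hg) _

theorem finrank_V (m : ℕ) : Module.finrank ℝ (V m) = m * m := by
  rw [Module.finrank_pi_fintype]
  simp

/-- Row MNK. -/
theorem pf_MNK : T_MNK := by
  intro m O b hm hO
  classical
  let b' : Module.Basis (Fin m × Fin m) ℝ (V m) := b.map (Matrix.ofLinearEquiv ℝ).symm
  have hfd : volume (ZSpan.fundamentalDomain b') < ⊤ :=
    (ZSpan.fundamentalDomain_isBounded b').measure_lt_top
  have hball : 0 < volume (ball (0 : V m) 1) := measure_ball_pos _ _ one_pos
  have hball2 : volume (ball (0 : V m) 1) < ⊤ := measure_ball_lt_top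
  let v := (volume (ZSpan.fundamentalDomain b')).toReal
  let w := (volume (ball (0 : V m) 1)).toReal
  have hw : 0 < w := ENNReal.toReal_pos hball.ne' hball2.ne
  have hv : 0 ≤ v := ENNReal.toReal_nonneg
  -- the constant
  let C0 : ℝ := max 1 (2 ^ (m * m) * v / w)
  have hC0 : 1 ≤ C0 := le_max_left _ _
  have hmm : 1 ≤ m * m := Nat.one_le_iff_ne_zero.2 (by positivity)
  refine ⟨C0, by linarith, ?_⟩
  intro g hg
  have hdet : LinearMap.det (rM g) ≠ 0 := by
    rw [rM_det]
    exact pow_ne_zero _ hg
  let e : V m ≃ₗ[ℝ] V m := LinearMap.equivOfDetNeZero (rM g) hdet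
  have he : ∀ z, e z = rM g z := fun z => rfl
  let c : Module.Basis (Fin m × Fin m) ℝ (V m) := b'.map e
  have hvol : volume (ZSpan.fundamentalDomain c) =
      ENNReal.ofReal (|g.det| ^ m) * volume (ZSpan.fundamentalDomain b') := by
    rw [ZSpan.measure_fundamentalDomain c volume b']
    congr 2
    have h1 : (c : Fin m × Fin m → V m) = (rM g) ∘ b' := by
      funext i
      exact he _
    rw [h1, Module.Basis.det_comp, Module.Basis.det_self, mul_one, rM_det, abs_pow]
  have hfund := ZSpan.isAddFundamentalDomain' c volume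
  have hcount : Countable (Submodule.span ℤ (Set.range c)).toAddSubgroup := by
    change Countable (Submodule.span ℤ (Set.range c))
    infer_instance
  have hdisc : DiscreteTopology (Submodule.span ℤ (Set.range c)).toAddSubgroup := by
    change DiscreteTopology (Submodule.span ℤ (Set.range c))
    infer_instance
  have hnt : Nontrivial (V m) := by
    have : Nonempty (Fin m) := ⟨⟨0, hm⟩⟩
    infer_instance
  have hT : 0 ≤ C0 * aN g := mul_nonneg (by linarith) (aN_nonneg g)
  obtain ⟨x, hx0, hxs⟩ := exists_ne_zero_mem_lattice_of_measure_mul_two_pow_le_measure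
    (s := closedBall (0 : V m) (C0 * aN g)) hfund
    (by
      intro x hx
      rw [mem_closedBall_zero_iff] at hx ⊢
      rwa [norm_neg]) (convex_closedBall _ _) (isCompact_closedBall _ _) (by
      rw [hvol, Measure.addHaar_closedBall _ _ hT, finrank_V, mul_pow, aN_pow hm]
      have e1 : volume (ZSpan.fundamentalDomain b') = ENNReal.ofReal v :=
        (ENNReal.ofReal_toReal hfd.ne).symm
      have e2 : volume (ball (0 : V m) 1) = ENNReal.ofReal w :=
        (ENNReal.ofReal_toReal hball2.ne).symm
      have e3 : (2 : ENNReal) ^ (m * m) = ENNReal.ofReal (2 ^ (m * m)) := by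
        rw [ENNReal.ofReal_pow (by norm_num)]
        simp
      have hC1 : 2 ^ (m * m) * v ≤ C0 ^ (m * m) * w := by
        have h1 : 2 ^ (m * m) * v / w ≤ C0 := le_max_right _ _
        have h2 : C0 ≤ C0 ^ (m * m) := le_self_pow₀ hC0 (by omega)
        rw [div_le_iff₀ hw] at h1
        nlinarith
      have hp : (0 : ℝ) ≤ |g.det| ^ m := by positivity
      rw [e1, e2, e3, ← ENNReal.ofReal_mul hp, ← ENNReal.ofReal_mul (by positivity),
        ← ENNReal.ofReal_mul (by positivity)]
      refine ENNReal.ofReal_le_ofReal ?_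
      nlinarith)
  -- the element
  let y : V m := e.symm (x : V m)
  have hy : e y = (x : V m) := e.apply_symm_apply _
  have hint : ∀ i, ∃ n : ℤ, c.repr (x : V m) i = n := by
    intro i
    obtain ⟨n, hn⟩ := (c.mem_span_iff_repr_mem ℤ (x : V m)).1 x.2 i
    refine ⟨n, ?_⟩
    rw [← hn]
    simp
  refine ⟨mt y, ?_, ?_, ?_⟩
  · rw [hO.lat]
    intro i
    obtain ⟨n, hn⟩ := hint i
    refine ⟨n, ?_⟩
    rw [← hn]
    rfl
  · intro h0
    apply hx0
    have hy0 : y = 0 := by
      funext i j
      have := congrFun (congrFun h0 i) j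
      exact this
    ext1
    rw [← hy, hy0, map_zero]
    rfl
  · have h1 : ((fun i j => (mt y * g) i j) : V m) = (x : V m) := by
      rw [← rM_apply, ← he, hy]
    unfold sz
    rw [h1]
    exact mem_closedBall_zero_iff.1 hxs

end Pool.Agent.H17.GM
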